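import Pool.Agent.helper51.QS.SpecB
import Pool.Agent.helper51.QS.Lib

/-!
# Row qs:RON (MP_74cfa5_ag): the prime of a general point of codimension two
-/

set_option autoImplicit false

namespace Pool.Agent.QS

open Pool.Agent.PC MvPolynomial

universe u

theorem RON_fin {A : Type u} [CommRing A] (m Q : Ideal A) (hQ : Q.IsPrime) (hQm : Q ≤ m)
    (y0 y1 t : A) (hy0 : y0 ∈ Q) (hy1 : y1 ∈ Q) (hsp : ∀ b ∈ Q, Inn m (Ideal.span {y0, y1}) b)
    (s α β : A) (ht : s * t = α * y0 + β * y1) (h : α ∉ Q ∨ β ∉ Q) :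
    ∃ u ∈ Q, ∀ b ∈ Q, Inn Q (Ideal.span {t, u}) b := by
  rcases h with h | h
  · refine ⟨y1, hy1, fun b hb => ?_⟩
    obtain ⟨s', hs', h1⟩ := hsp b hb
    rw [Ideal.mem_span_pair] at h1
    obtain ⟨γ, δ, h1⟩ := h1
    refine ⟨α * s', fun h2 => (hQ.mem_or_mem h2).elim h fun h3 => hs' (hQm h3), ?_⟩
    rw [Ideal.mem_span_pair]
    refine ⟨γ * s, α * δ - γ * β, ?_⟩
    have h3 : α * s' * b = α * (s' * b) := by ring
    rw [h3, ← h1]
    linear_combination γ * ht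
  · refine ⟨y0, hy0, fun b hb => ?_⟩
    obtain ⟨s', hs', h1⟩ := hsp b hb
    rw [Ideal.mem_span_pair] at h1
    obtain ⟨γ, δ, h1⟩ := h1
    refine ⟨β * s', fun h2 => (hQ.mem_or_mem h2).elim h fun h3 => hs' (hQm h3), ?_⟩
    rw [Ideal.mem_span_pair]
    refine ⟨δ * s, β * γ - δ * α, ?_⟩
    have h3 : β * s' * b = β * (s' * b) := by ring
    rw [h3, ← h1]
    linear_combination δ * ht

theorem RON_sum (n : ℕ) (h : 2 ≤ n) : ∑ i : Fin n, (((if (i : ℕ) < 2 then 1 else 0 : ℕ)) : ℤ) = 2 := by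
  obtain ⟨n, rfl⟩ := Nat.exists_eq_add_of_le' h
  rw [Fin.sum_univ_succ, Fin.sum_univ_succ]
  simp

theorem RON_set {A : Type u} {n : ℕ} (h2 : 2 ≤ n) (y : Fin n → A) :
    {b | ∃ i : Fin n, (i : ℕ) < 2 ∧ b = y i} = {y ⟨0, by omega⟩, y ⟨1, by omega⟩} := by
  ext b
  simp only [Set.mem_setOf_eq, Set.mem_insert_iff, Set.mem_singleton_iff]
  constructor
  · rintro ⟨⟨i, hi⟩, h1, rfl⟩
    have h3 : i = 0 ∨ i = 1 := by
      simp only at h1
      omega
    rcases h3 with rfl | rfl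
    · exact Or.inl rfl
    · exact Or.inr rfl
  · rintro (rfl | rfl)
    · exact ⟨⟨0, by omega⟩, by simp, rfl⟩
    · exact ⟨⟨1, by omega⟩, by simp, rfl⟩

theorem RON_set1 {A : Type u} {n : ℕ} (h2 : 2 ≤ n) (y : Fin n → A) :
    {b | ∃ i : Fin n, (i : ℕ) < 1 ∧ b = y i} = {y ⟨0, by omega⟩} := by
  ext b
  simp only [Set.mem_setOf_eq, Set.mem_singleton_iff]
  constructor
  · rintro ⟨⟨i, hi⟩, h1, rfl⟩
    have h3 : i = 0 := by
      simp only at h1
      omega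
    subst h3
    rfl
  · rintro rfl
    exact ⟨⟨0, by omega⟩, by simp, rfl⟩

theorem RON_res (k A : Type u) [Field k] [IsAlgClosed k] [CommRing A] [Algebra k A] [Algebra.FiniteType k A]
    (m : Ideal A) [m.IsMaximal] (a : A) : ∃ c : k, a - algebraMap k A c ∈ m := by
  letI := Ideal.Quotient.field m
  haveI : Algebra.FiniteType k (A ⧸ m) := inferInstance
  haveI : Module.Finite k (A ⧸ m) := finite_of_finite_type_of_isJacobsonRing k (A ⧸ m)
  haveI : Algebra.IsIntegral k (A ⧸ m) := Algebra.IsIntegral.of_finite k (A ⧸ m)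
  obtain ⟨c, hc⟩ := (IsAlgClosed.algebraMap_bijective_of_isIntegral (k := k) (K := A ⧸ m)).2 (Ideal.Quotient.mk m a)
  refine ⟨c, ?_⟩
  rw [← Ideal.Quotient.eq_zero_iff_mem, map_sub, ← hc, sub_eq_zero]
  rfl

/-- values at `s b = α y0 + β y1` -/
theorem RON_val {A K : Type u} [CommRing A] [IsDomain A] [Field K] [Algebra A K] [IsFractionRing A K] (m : Ideal A) {v : K → ℤ} (hv : DVal v)
    (hm : ∀ a : A, a ∉ m → v (algebraMap A K a) = 0) (s b : A) (hs : s ∉ m) (r : ℤ)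
    (h : Ge v r (algebraMap A K (s * b))) : Ge v r (algebraMap A K b) := by
  by_cases hb : b = 0
  · rw [hb, map_zero]
    exact Or.inl rfl
  · have hs0 : s ≠ 0 := fun h0 => hs (h0 ▸ m.zero_mem)
    have hinj := IsFractionRing.injective A K
    have hb' : algebraMap A K b ≠ 0 := (map_ne_zero_iff _ hinj).2 hb
    have hs' : algebraMap A K s ≠ 0 := (map_ne_zero_iff _ hinj).2 hs0
    rw [map_mul] at h
    have h1 := h.resolve_left (mul_ne_zero hs' hb')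
    rw [hv.mul _ _ hs' hb', hm s hs, zero_add] at h1
    exact Or.inr h1

theorem RON (hDUA : DUA_stmt.{u}) (hQRR : QRR_stmt.{u}) (hTAY : TAY_stmt.{u}) (hPYY : PYY_stmt.{u}) (hWVL : WVL_stmt.{u}) (hYWV : YWV_stmt.{u}) (hWDR : WDR_stmt.{u}) (hWLG : WLG_stmt.{u}) (hWTR : WTR_stmt.{u}) (hPSI : PSI_stmt.{u}) (hGAL : GAL_stmt.{u}) (hDSQ : DSQ_stmt.{u}) : RON_stmt.{u} := by
  intro k R A F K G _ _ _ _ _ _ _ _ _ _ _ _ _ _ _ _ _ _ _ _ _ _ _ _ _ _ _ _ _ _ _ _ _ _ n p _ _ x hx hfin h2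
    ω μ g hω hg hμ m _ hDisc t ht0 hyp Q y hQ hQm htQ hy hy0Q hy1Q hsp
  haveI : Algebra.FinitePresentation k A := Algebra.Smooth.finitePresentation
  haveI : Algebra.FiniteType k A := inferInstance
  haveI : IsNoetherianRing A := Algebra.FiniteType.isNoetherianRing k A
  have hmm : m.IsMaximal := inferInstance
  have hmt : m ≠ ⊤ := hmm.ne_top
  have hmp : m.IsPrime := hmm.isPrime
  have hres := RON_res k A m
  obtain ⟨D, hD⟩ := hDUA k A K n hfin m hmm y hy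
  obtain ⟨φ, hT⟩ := hTAY k A n m hres y hy (hQRR k A n m hmt hres y hy)
  set w : Fin n → ℕ := fun i => if (i : ℕ) < 2 then 1 else 0 with hw
  have hw0 : w ⟨0, by omega⟩ = 1 := by simp [hw]
  have hw1 : w ⟨1, by omega⟩ = 1 := by simp [hw]
  obtain ⟨v, hW⟩ := hWVL k A K n m y φ hT w (Or.inl ⟨⟨0, by omega⟩, hw0⟩)
  obtain ⟨hv1, hv2, hv3, hv4, -⟩ := hYWV k A K n m y φ hT w v hW
  have hv : DVal v := hW.1
  have hlog : LogGe F v D (-2) := by
    intro f hf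
    have h3 := hWLG k K n v D (fun i => algebraMap A K (y i)) (fun i => (w i : ℤ)) hv hv1
      (fun i b r hb => hWDR k A K n m y φ D hT hD w v hW i b r hb) (fun i => algebraMap F K (f i))
      (fun i => by
        rw [Ne, map_eq_zero]
        exact hf i)
    rw [show ∑ i, (w i : ℤ) = 2 from RON_sum n h2] at h3
    exact h3
  obtain ⟨hFD, hSep, -⟩ := hGAL k R A F K G
  obtain ⟨Ψ, hΨ⟩ := hPSI k F K n D (fun j => algebraMap A K (y j)) hD.1 hfin
  obtain ⟨u, s, hs, hgu⟩ := hyp D y hD.1 Ψ hΨ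
  obtain ⟨𝔮, hqp, hqm, hq1, hq2⟩ := hPYY k A n m y φ hT 1
  have hy0q : y ⟨0, by omega⟩ ∈ 𝔮 := by
    rw [hq1]
    exact Lib_inn_of_mem hmt (Ideal.subset_span ⟨⟨0, by omega⟩, by simp, rfl⟩)
  have hy00 : y ⟨0, by omega⟩ ≠ 0 := by
    intro h0
    apply (hv1 ⟨0, by omega⟩).1
    rw [h0, map_zero]
  have hgy0 : Ge v 1 (algebraMap A K (y ⟨0, by omega⟩)) := by
    right
    rw [(hv1 ⟨0, by omega⟩).2, hw0]
    simp
  have hgy1 : Ge v 1 (algebraMap A K (y ⟨1, by omega⟩)) := by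
    right
    rw [(hv1 ⟨1, by omega⟩).2, hw1]
    simp
  have hqb : 𝔮 ≠ ⊥ := by
    intro h0
    rw [h0] at hy0q
    exact hy00 hy0q
  have hqv : ∀ a ∈ 𝔮, Ge v 1 (algebraMap A K a) := by
    intro a ha
    rw [hq1, RON_set1 h2] at ha
    obtain ⟨s', hs', h3⟩ := ha
    rw [Ideal.mem_span_singleton'] at h3
    obtain ⟨c, hc⟩ := h3
    refine RON_val m hv hv4 s' a hs' 1 ?_
    rw [← hc, map_mul]
    have h4 := CON_ge_mul hv (hv3 c) hgy0
    rwa [zero_add] at h4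
  have hqy1 : ∃ a : A, Ge v 1 (algebraMap A K a) ∧ a ∉ 𝔮 := by
    refine ⟨y ⟨1, by omega⟩, hgy1, ?_⟩
    rw [hq2]
    intro h3
    have h4 := h3 (Finsupp.single ⟨1, by omega⟩ 1) (fun i hi => by
      rw [Finsupp.single_apply, if_neg]
      rintro rfl
      simp at hi)
    rw [hT.1, MvPowerSeries.coeff_X, if_pos rfl] at h4
    exact one_ne_zero h4
  have hTR := hWTR k A K n m y φ hT w v hW ⟨⟨0, by omega⟩, by rw [hw0]; exact one_pos⟩
  have hlt := hDSQ k R A F K G n p x hx D Ψ hΨ ω μ g hω hg hμ m hDisc t u s hs hgu v (-2) hv hv2 hv3 hv4 hTR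
    𝔮 hqp hqb hqv hqy1 hlog
  -- the elements of `Q` have positive value
  rw [RON_set h2] at hsp
  have hQv : ∀ b ∈ Q, Ge v 1 (algebraMap A K b) := by
    intro b hb
    obtain ⟨s', hs', h3⟩ := hsp b hb
    rw [Ideal.mem_span_pair] at h3
    obtain ⟨γ, δ, h3⟩ := h3
    refine RON_val m hv hv4 s' b hs' 1 ?_
    rw [← h3, map_add, map_mul, map_mul]
    have h4 := CON_ge_mul hv (hv3 γ) hgy0
    have h5 := CON_ge_mul hv (hv3 δ) hgy1
    rw [zero_add] at h4 h5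
    exact CON_ge_add hv h4 h5
  obtain ⟨s', hs', h3⟩ := hsp t htQ
  rw [Ideal.mem_span_pair] at h3
  obtain ⟨α, β, h3⟩ := h3
  refine RON_fin m Q hQ hQm _ _ t hy0Q hy1Q hsp s' α β h3.symm ?_
  by_contra hcon
  rw [not_or, not_not, not_not] at hcon
  have h4 : Ge v 2 (algebraMap A K t) := by
    refine RON_val m hv hv4 s' t hs' 2 ?_
    rw [← h3, map_add, map_mul, map_mul]
    have h5 := CON_ge_mul hv (hQv α hcon.1) hgy0
    have h6 := CON_ge_mul hv (hQv β hcon.2) hgy1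
    exact CON_ge_add hv h5 h6
  have h5 := h4.resolve_left (fun h0 => ht0 ((map_eq_zero_iff _ (IsFractionRing.injective A K)).1 h0))
  omega

end Pool.Agent.QS
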