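import Pool.Agent.helper32.QS.Spec

set_option autoImplicit false

namespace QS

open scoped BigOperators commutatorElement

section CHsec

variable {H : Type} [Group H]

theorem CH_rne [Finite H] (A B : Subgroup H) : A.relIndex B ≠ 0 := by
  unfold Subgroup.relIndex
  exact Subgroup.index_ne_zero_of_finite

/-- the subgroup of elements `w` with `⁅c, w⁆ ∈ A` -/
def CH_K (A : Subgroup H) [A.Normal] (c : H) : Subgroup H :=
  (Subgroup.centralizer ({QuotientGroup.mk' A c} : Set (H ⧸ A))).comap (QuotientGroup.mk' A)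

theorem CH_comm_iff (A : Subgroup H) [A.Normal] (c w : H) :
    ⁅c, w⁆ ∈ A ↔ QuotientGroup.mk' A c * QuotientGroup.mk' A w
      = QuotientGroup.mk' A w * QuotientGroup.mk' A c := by
  rw [← commutatorElement_eq_one_iff_mul_comm, ← map_commutatorElement]
  rw [QuotientGroup.mk'_apply, QuotientGroup.eq_one_iff]

theorem CH_mem_K (A : Subgroup H) [A.Normal] (c w : H) : w ∈ CH_K A c ↔ ⁅c, w⁆ ∈ A := by
  unfold CH_K
  rw [Subgroup.mem_comap, Subgroup.mem_centralizer_singleton_iff, CH_comm_iff]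
  constructor <;> intro h <;> exact h.symm

/-- `C_W` -/
def CH_CW (A C : Subgroup H) [A.Normal] (W : Subgroup H) : Subgroup H :=
  C ⊓ (Subgroup.centralizer ((W.map (QuotientGroup.mk' A) : Subgroup (H ⧸ A)) : Set (H ⧸ A))).comap
    (QuotientGroup.mk' A)

theorem CH_mem_CW (A C : Subgroup H) [A.Normal] (W : Subgroup H) (c : H) :
    c ∈ CH_CW A C W ↔ c ∈ C ∧ ∀ w ∈ W, ⁅c, w⁆ ∈ A := by
  unfold CH_CW
  rw [Subgroup.mem_inf, Subgroup.mem_comap, Subgroup.mem_centralizer_iff]
  refine and_congr_right fun _ => ?_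
  constructor
  · intro h w hw
    rw [CH_comm_iff]
    exact (h _ ⟨w, hw, rfl⟩).symm
  · rintro h _ ⟨w, hw, rfl⟩
    have := h w hw
    rw [CH_comm_iff] at this
    exact this.symm

/-- `W^⊥` -/
def CH_PW (S W : Subgroup H) : Subgroup H := S ⊓ Subgroup.centralizer (W : Set H)

theorem CH_mem_PW (S W : Subgroup H) (x : H) :
    x ∈ CH_PW S W ↔ x ∈ S ∧ ∀ w ∈ W, x * w = w * x := by
  unfold CH_PW
  rw [Subgroup.mem_inf, Subgroup.mem_centralizer_iff]
  refine and_congr_right fun _ => ?_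
  constructor
  · intro h w hw
    exact (h w hw).symm
  · intro h w hw
    exact (h w hw).symm

/-- chains of subgroups with prime indices -/
structure CH_Ch (A S : Subgroup H) (m : ℕ) (V : ℕ → Subgroup H) : Prop where
  z : V 0 = A
  t : V m = S
  le : ∀ j < m, V j ≤ V (j + 1)
  leS : ∀ j ≤ m, V j ≤ S
  pr : ∀ j < m, ((V j).relIndex (V (j + 1))).Prime

/-- a cover of prime index -/
theorem CH_cover [Finite H] (A S W : Subgroup H) (hAW : A ≤ W) (hWS : W ≤ S) (hne : ¬ S ≤ W)
    (hcomm : ∀ x ∈ S, ∀ y ∈ S, ⁅x, y⁆ ∈ A) :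
    ∃ W' : Subgroup H, W ≤ W' ∧ W' ≤ S ∧ (W.relIndex W').Prime := by
  have hN : (W.subgroupOf S).Normal := by
    constructor
    intro n hn g
    rw [Subgroup.mem_subgroupOf] at hn ⊢
    have h1 : ⁅(g : H), (n : H)⁆ ∈ W := hAW (hcomm _ g.2 _ n.2)
    have h2 : ((g * n * g⁻¹ : S) : H) = ⁅(g : H), (n : H)⁆ * (n : H) := by
      simp [commutatorElement_def]
    rw [h2]
    exact W.mul_mem h1 hn
  set N := W.subgroupOf S with hNdef
  have hidx : W.relIndex S ≠ 1 := by
    rw [Ne, Subgroup.relIndex_eq_one]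
    exact hne
  have hcard : Nat.card (S ⧸ N) = W.relIndex S := rfl
  obtain ⟨ℓ, hℓ, hdvd⟩ := Nat.exists_prime_and_dvd hidx
  have : Fact ℓ.Prime := ⟨hℓ⟩
  rw [← hcard] at hdvd
  obtain ⟨q, hq⟩ := exists_prime_orderOf_dvd_card' (G := S ⧸ N) ℓ hdvd
  set Z := (Subgroup.zpowers q).comap (QuotientGroup.mk' N) with hZ
  have hNZ : N ≤ Z := by
    intro x hx
    rw [hZ, Subgroup.mem_comap]
    have : QuotientGroup.mk' N x = 1 := by
      rw [QuotientGroup.mk'_apply, QuotientGroup.eq_one_iff]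
      exact hx
    rw [this]
    exact Subgroup.one_mem _
  refine ⟨Z.map S.subtype, ?_, ?_, ?_⟩
  · intro w hw
    exact ⟨⟨w, hWS hw⟩, hNZ hw, rfl⟩
  · rintro _ ⟨x, _, rfl⟩
    exact x.2
  · have h1 : W.relIndex (Z.map S.subtype) = N.relIndex Z := by
      rw [hNdef]
      exact (Subgroup.relIndex_comap W S.subtype Z).symm
    have h2 : N.relIndex Z = ℓ := by
      have h3 : N = (⊥ : Subgroup (S ⧸ N)).comap (QuotientGroup.mk' N) := by
        rw [MonoidHom.comap_bot, QuotientGroup.ker_mk']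
      have h4 : N.relIndex Z = ((⊥ : Subgroup (S ⧸ N)).comap (QuotientGroup.mk' N)).relIndex Z := by
        rw [← h3]
      rw [h4, Subgroup.relIndex_comap, hZ, Subgroup.map_comap_eq_self_of_surjective
        (QuotientGroup.mk'_surjective N), Subgroup.relIndex_bot_left, Nat.card_zpowers, hq]
    rw [h1, h2]
    exact hℓ

/-- existence of prime chains above `W` -/
theorem CH_exists [Finite H] (A S : Subgroup H) (hcomm : ∀ x ∈ S, ∀ y ∈ S, ⁅x, y⁆ ∈ A) :
    ∀ (n : ℕ) (W : Subgroup H), A ≤ W → W ≤ S → W.relIndex S ≤ n →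
      ∃ (m : ℕ) (V : ℕ → Subgroup H), CH_Ch W S m V := by
  intro n
  induction n with
  | zero =>
    intro W _ _ h
    exact absurd (Nat.le_zero.mp h) (CH_rne _ _)
  | succ n ih =>
    intro W hAW hWS hn
    by_cases hne : S ≤ W
    · have hSW : W = S := le_antisymm hWS hne
      refine ⟨0, fun _ => W, rfl, hSW, ?_, ?_, ?_⟩
      · intro j hj; omega
      · intro j _; exact hWS
      · intro j hj; omega
    · obtain ⟨W', h1, h2, h3⟩ := CH_cover A S W hAW hWS hne hcomm
      have h4 : W.relIndex W' * W'.relIndex S = W.relIndex S :=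
        Subgroup.relIndex_mul_relIndex W W' S h1 h2
      have h5 : W'.relIndex S ≤ n := by
        have h6 := h3.two_le
        have h7 : W'.relIndex S ≠ 0 := CH_rne _ _
        have h8 : 1 ≤ W'.relIndex S := Nat.one_le_iff_ne_zero.mpr h7
        nlinarith
      obtain ⟨m, V, hV⟩ := ih W' (hAW.trans h1) h2 h5
      refine ⟨m + 1, fun j => Nat.casesOn j W V, rfl, hV.t, ?_, ?_, ?_⟩
      · intro j hj
        cases j with
        | zero =>
          change W ≤ V 0
          rw [hV.z]; exact h1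
        | succ j => exact hV.le j (by omega)
      · intro j hj
        cases j with
        | zero => exact hWS
        | succ j => exact hV.leS j (by omega)
      · intro j hj
        cases j with
        | zero =>
          change (W.relIndex (V 0)).Prime
          rw [hV.z]; exact h3
        | succ j => exact hV.pr j (by omega)

theorem CH_Om_chain (m : ℕ) (w p : ℕ → ℕ) (h0 : w 0 = 1) (hs : ∀ j < m, w (j + 1) = w j * p j)
    (hp : ∀ j < m, (p j).Prime) : ∀ j ≤ m, w j ≠ 0 ∧ Om (w j) = j := by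
  intro j
  induction j with
  | zero =>
    intro _
    rw [h0]
    refine ⟨one_ne_zero, ?_⟩
    simp [Om]
  | succ j ih =>
    intro hj
    obtain ⟨h1, h2⟩ := ih (by omega)
    have hpj := hp j (by omega)
    rw [hs j (by omega)]
    refine ⟨mul_ne_zero h1 hpj.ne_zero, ?_⟩
    unfold Om at h2 ⊢
    rw [(Nat.perm_primeFactorsList_mul h1 hpj.ne_zero).length_eq, List.length_append, h2,
      Nat.primeFactorsList_prime hpj]
    rfl

/-- the element generating the next subgroup of a chain -/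
theorem CH_gen [Finite H] (V W K : Subgroup H) (hVW : V ≤ W) (hp : (V.relIndex W).Prime) (e : H)
    (he : e ∈ W) (heV : e ∉ V) (hVK : V ≤ K) (heK : e ∈ K) : W ≤ K := by
  have h1 : V ≤ K ⊓ W := le_inf hVK hVW
  have h2 : V.relIndex (K ⊓ W) * (K ⊓ W).relIndex W = V.relIndex W :=
    Subgroup.relIndex_mul_relIndex V (K ⊓ W) W h1 inf_le_right
  have h3 : V.relIndex (K ⊓ W) ≠ 1 := by
    rw [Ne, Subgroup.relIndex_eq_one]
    intro h
    exact heV (h ⟨heK, he⟩)
  have h4 : V.relIndex (K ⊓ W) = V.relIndex W := by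
    rcases (Nat.dvd_prime hp).mp (Dvd.intro _ h2) with h | h
    · exact absurd h h3
    · exact h
  rw [h4] at h2
  have h5 : (K ⊓ W).relIndex W = 1 := by
    have h6 := hp.pos
    exact Nat.eq_of_mul_eq_mul_left h6 (by rw [h2, mul_one])
  rw [Subgroup.relIndex_eq_one] at h5
  exact h5.trans inf_le_left

/-- the abstract data -/
structure CH_D (A C S : Subgroup H) : Prop where
  hA : A.Normal
  hAS : A ≤ S
  hSC : S ≤ C
  ne : ¬ S ≤ A
  cen : ∀ a ∈ A, ∀ c ∈ C, a * c = c * a
  comm : ∀ x ∈ S, ∀ y ∈ S, ⁅x, y⁆ ∈ A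
  cent : ∀ x ∈ S, (∀ y ∈ S, x * y = y * x) → x ∈ A
  self : ∀ c ∈ C, (∀ s ∈ S, ⁅c, s⁆ ∈ A) → c ∈ S
  du : ∀ W P : Subgroup H, A ≤ W → W ≤ S → (∀ x, x ∈ P ↔ x ∈ S ∧ ∀ w ∈ W, x * w = w * x) →
    A.relIndex W * A.relIndex P = A.relIndex S
  ch1 : ∀ W P C₁ C₂ : Subgroup H, A ≤ W → W ≤ S →
    (∀ x, x ∈ P ↔ x ∈ S ∧ ∀ w ∈ W, x * w = w * x) →
    (∀ c, c ∈ C₁ ↔ c ∈ C ∧ ∀ w ∈ W, ⁅c, w⁆ ∈ A) →
    ∀ e ∈ S, (∀ c, c ∈ C₂ ↔ c ∈ C₁ ∧ ⁅c, e⁆ ∈ A) →
    C₂.relIndex C₁ ≤ A.relIndex P ∧
    (W = A → e ∉ A → C₂.relIndex C₁ ≤ A.relIndex S - 1)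

theorem CH_chain_leA {A S : Subgroup H} {m : ℕ} {V : ℕ → Subgroup H} (hV : CH_Ch A S m V) :
    ∀ j ≤ m, A ≤ V j := by
  intro j
  induction j with
  | zero => intro _; exact le_of_eq hV.z.symm
  | succ j ih => intro hj; exact (ih (by omega)).trans (hV.le j (by omega))

theorem CH_bound [Finite H] (A C S : Subgroup H) (hD : CH_D A C S) (m : ℕ) (V : ℕ → Subgroup H)
    (hV : CH_Ch A S (m + 1) V) :
    S.relIndex C * A.relIndex S ≤
      (A.relIndex S - 1) * ∏ j ∈ Finset.range (m + 1), A.relIndex (CH_PW S (V j)) := by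
  have := hD.hA
  have hstep : ∀ j < m + 1, (CH_CW A C (V (j + 1))).relIndex (CH_CW A C (V j))
      ≤ A.relIndex (CH_PW S (V j)) ∧
      (j = 0 → (CH_CW A C (V (j + 1))).relIndex (CH_CW A C (V j)) ≤ A.relIndex S - 1) := by
    intro j hj
    have hp := hV.pr j hj
    have hne1 : ¬ V (j + 1) ≤ V j := by
      intro h
      have h1 : (V j).relIndex (V (j + 1)) = 1 := by
        rw [Subgroup.relIndex_eq_one]; exact h
      exact hp.one_lt.ne' h1
    obtain ⟨e, he, heV⟩ := SetLike.not_le_iff_exists.mp hne1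
    have heS : e ∈ S := hV.leS (j + 1) (by omega) he
    have h := hD.ch1 (V j) (CH_PW S (V j)) (CH_CW A C (V j)) (CH_CW A C (V (j + 1)))
      (CH_chain_leA hV j (by omega)) (hV.leS j (by omega)) (CH_mem_PW S (V j))
      (CH_mem_CW A C (V j)) e heS (by
        intro c
        rw [CH_mem_CW, CH_mem_CW]
        constructor
        · rintro ⟨h1, h2⟩
          exact ⟨⟨h1, fun w hw => h2 w (hV.le j hj hw)⟩, h2 e he⟩
        · rintro ⟨⟨h1, h2⟩, h3⟩
          refine ⟨h1, ?_⟩
          have h4 : V (j + 1) ≤ CH_K A c := by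
            refine CH_gen (V j) (V (j + 1)) (CH_K A c) (hV.le j hj) hp e he heV ?_ ?_
            · intro w hw
              rw [CH_mem_K]
              exact h2 w hw
            · rw [CH_mem_K]; exact h3
          intro w hw
          have h5 := h4 hw
          rw [CH_mem_K] at h5
          exact h5)
    refine ⟨h.1, ?_⟩
    intro hj0
    subst hj0
    refine h.2 hV.z ?_
    rw [← hV.z]
    exact heV
  have hle : ∀ j < m + 1, CH_CW A C (V (j + 1)) ≤ CH_CW A C (V j) := by
    intro j hj c hc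
    rw [CH_mem_CW] at hc ⊢
    exact ⟨hc.1, fun w hw => hc.2 w (hV.le j hj hw)⟩
  have hle0 : ∀ j ≤ m + 1, CH_CW A C (V j) ≤ CH_CW A C (V 0) := by
    intro j
    induction j with
    | zero => intro _; exact le_rfl
    | succ j ih => intro hj; exact (hle j (by omega)).trans (ih (by omega))
  have hprod : ∀ j ≤ m + 1, (CH_CW A C (V j)).relIndex (CH_CW A C (V 0)) =
      ∏ i ∈ Finset.range j, (CH_CW A C (V (i + 1))).relIndex (CH_CW A C (V i)) := by
    intro j
    induction j with
    | zero =>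
      intro _
      rw [Finset.prod_range_zero, Subgroup.relIndex_self]
    | succ j ih =>
      intro hj
      rw [Finset.prod_range_succ, ← ih (by omega), mul_comm,
        Subgroup.relIndex_mul_relIndex _ _ _ (hle j (by omega)) (hle0 j (by omega))]
  have hC0 : CH_CW A C (V 0) = C := by
    ext c
    rw [CH_mem_CW, hV.z]
    constructor
    · exact fun h => h.1
    · intro h
      refine ⟨h, fun w hw => ?_⟩
      have : ⁅c, w⁆ = 1 := by
        rw [commutatorElement_eq_one_iff_mul_comm]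
        exact (hD.cen w hw c h).symm
      rw [this]
      exact A.one_mem
  have hCm : CH_CW A C (V (m + 1)) = S := by
    ext c
    rw [CH_mem_CW, hV.t]
    constructor
    · exact fun h => hD.self c h.1 h.2
    · intro h
      exact ⟨hD.hSC h, fun w hw => hD.comm c h w hw⟩
  have hP0 : CH_PW S (V 0) = S := by
    ext c
    rw [CH_mem_PW, hV.z]
    constructor
    · exact fun h => h.1
    · intro h
      exact ⟨h, fun w hw => (hD.cen w hw c (hD.hSC h)).symm⟩
  have h1 := hprod (m + 1) le_rfl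
  rw [hC0, hCm, Finset.prod_range_succ'] at h1
  rw [h1, Finset.prod_range_succ', hP0]
  have h2 : ∏ k ∈ Finset.range m, (CH_CW A C (V (k + 1 + 1))).relIndex (CH_CW A C (V (k + 1))) ≤
      ∏ k ∈ Finset.range m, A.relIndex (CH_PW S (V (k + 1))) := by
    refine Finset.prod_le_prod' fun k hk => ?_
    exact (hstep (k + 1) (by have := Finset.mem_range.mp hk; omega)).1
  have h3 := (hstep 0 (by omega)).2 rfl
  calc (∏ k ∈ Finset.range m, (CH_CW A C (V (k + 1 + 1))).relIndex (CH_CW A C (V (k + 1)))) *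
        (CH_CW A C (V (0 + 1))).relIndex (CH_CW A C (V 0)) * A.relIndex S
      ≤ (∏ k ∈ Finset.range m, A.relIndex (CH_PW S (V (k + 1)))) * (A.relIndex S - 1)
        * A.relIndex S := Nat.mul_le_mul_right _ (Nat.mul_le_mul h2 h3)
    _ = _ := by ring

theorem CH_dual [Finite H] (A C S : Subgroup H) (hD : CH_D A C S) (m : ℕ) (V : ℕ → Subgroup H)
    (hV : CH_Ch A S m V) :
    CH_Ch A S m (fun j => CH_PW S (V (m - j))) ∧
      ∀ j ≤ m, A.relIndex (CH_PW S (CH_PW S (V (m - j)))) = A.relIndex (V (m - j)) := by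
  have hAP : ∀ W : Subgroup H, W ≤ S → A ≤ CH_PW S W := by
    intro W hW a ha
    rw [CH_mem_PW]
    exact ⟨hD.hAS ha, fun w hw => hD.cen a ha w (hD.hSC (hW hw))⟩
  have hPS : ∀ W : Subgroup H, CH_PW S W ≤ S := by
    intro W x hx
    rw [CH_mem_PW] at hx
    exact hx.1
  have hdu : ∀ W : Subgroup H, A ≤ W → W ≤ S →
      A.relIndex W * A.relIndex (CH_PW S W) = A.relIndex S := fun W h1 h2 =>
    hD.du W (CH_PW S W) h1 h2 (CH_mem_PW S W)
  have hpos : ∀ W : Subgroup H, 0 < A.relIndex W := fun W =>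
    Nat.pos_of_ne_zero (CH_rne _ _)
  refine ⟨⟨?_, ?_, ?_, ?_, ?_⟩, ?_⟩
  · change CH_PW S (V (m - 0)) = A
    rw [Nat.sub_zero, hV.t]
    refine le_antisymm ?_ (hAP S le_rfl)
    intro x hx
    rw [CH_mem_PW] at hx
    exact hD.cent x hx.1 hx.2
  · change CH_PW S (V (m - m)) = S
    rw [Nat.sub_self, hV.z]
    refine le_antisymm (hPS A) ?_
    intro x hx
    rw [CH_mem_PW]
    exact ⟨hx, fun w hw => (hD.cen w hw x (hD.hSC hx)).symm⟩
  · intro j hj x hx
    change x ∈ CH_PW S (V (m - j)) at hx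
    change x ∈ CH_PW S (V (m - (j + 1)))
    rw [CH_mem_PW] at hx ⊢
    refine ⟨hx.1, fun w hw => hx.2 w ?_⟩
    have h := hV.le (m - (j + 1)) (by omega)
    rw [show m - (j + 1) + 1 = m - j by omega] at h
    exact h hw
  · intro j _
    exact hPS _
  · intro j hj
    change ((CH_PW S (V (m - j))).relIndex (CH_PW S (V (m - (j + 1))))).Prime
    have h1 := hV.le (m - (j + 1)) (by omega)
    have hp := hV.pr (m - (j + 1)) (by omega)
    rw [show m - (j + 1) + 1 = m - j by omega] at h1 hp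
    have hA1 := CH_chain_leA hV (m - (j + 1)) (by omega)
    have hA2 := CH_chain_leA hV (m - j) (by omega)
    have hS1 := hV.leS (m - (j + 1)) (by omega)
    have hS2 := hV.leS (m - j) (by omega)
    have e1 := hdu _ hA1 hS1
    have e2 := hdu _ hA2 hS2
    have e3 := Subgroup.relIndex_mul_relIndex _ _ _ hA1 h1
    have hle : CH_PW S (V (m - j)) ≤ CH_PW S (V (m - (j + 1))) := by
      intro x hx
      rw [CH_mem_PW] at hx ⊢
      exact ⟨hx.1, fun w hw => hx.2 w (h1 hw)⟩
    have e4 := Subgroup.relIndex_mul_relIndex _ _ _ (hAP _ hS2) hle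
    have e5 : (CH_PW S (V (m - j))).relIndex (CH_PW S (V (m - (j + 1)))) =
        (V (m - (j + 1))).relIndex (V (m - j)) := by
      have hpos1 := hpos (V (m - (j + 1)))
      have hpos2 := hpos (CH_PW S (V (m - j)))
      refine Nat.eq_of_mul_eq_mul_left (Nat.mul_pos hpos1 hpos2) ?_
      rw [mul_assoc, e4, e1, ← e2, ← e3]
      ring
    rw [e5]
    exact hp
  · intro j hj
    have hA2 := CH_chain_leA hV (m - j) (by omega)
    have hS2 := hV.leS (m - j) (by omega)
    have e2 := hdu _ hA2 hS2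
    have e3 := hdu _ (hAP _ hS2) (hPS _)
    have hpos2 := hpos (CH_PW S (V (m - j)))
    refine Nat.eq_of_mul_eq_mul_left hpos2 ?_
    rw [e3, ← e2]
    ring

theorem CH_main [Finite H] (A C S : Subgroup H) (hD : CH_D A C S) :
    (S.relIndex C * A.relIndex S) ^ 2 ≤
      (A.relIndex S - 1) ^ 2 * A.relIndex S ^ (Om (A.relIndex S) + 1) := by
  obtain ⟨m, V, hV⟩ := CH_exists A S hD.comm (A.relIndex S) A le_rfl hD.hAS le_rfl
  cases m with
  | zero =>
    exfalso
    have h1 := hV.z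
    rw [hV.t] at h1
    exact hD.ne (le_of_eq h1)
  | succ m =>
    have hb1 := CH_bound A C S hD m V hV
    obtain ⟨hV', hq⟩ := CH_dual A C S hD (m + 1) V hV
    have hb2 := CH_bound A C S hD m _ hV'
    have hdu : ∀ W : Subgroup H, A ≤ W → W ≤ S →
        A.relIndex W * A.relIndex (CH_PW S W) = A.relIndex S := fun W h1 h2 =>
      hD.du W (CH_PW S W) h1 h2 (CH_mem_PW S W)
    have e1 : ∏ j ∈ Finset.range (m + 1), A.relIndex (CH_PW S (CH_PW S (V (m + 1 - j)))) =
        ∏ j ∈ Finset.range (m + 1), A.relIndex (V (j + 1)) := by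
      rw [← Finset.prod_range_reflect]
      refine Finset.prod_congr rfl fun j hj => ?_
      have hj' := Finset.mem_range.mp hj
      rw [hq (m + 1 - 1 - j) (by omega)]
      congr 2
      omega
    have e2 : (∏ j ∈ Finset.range (m + 1), A.relIndex (V (j + 1))) =
        (∏ j ∈ Finset.range (m + 1), A.relIndex (V j)) * A.relIndex S := by
      have h1 := Finset.prod_range_succ' (fun j => A.relIndex (V j)) (m + 1)
      have h2 := Finset.prod_range_succ (fun j => A.relIndex (V j)) (m + 1)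
      rw [h1] at h2
      rw [hV.z, hV.t, Subgroup.relIndex_self, mul_one] at h2
      exact h2
    have e3 : (∏ j ∈ Finset.range (m + 1), A.relIndex (CH_PW S (V j))) *
        (∏ j ∈ Finset.range (m + 1), A.relIndex (V j)) = A.relIndex S ^ (m + 1) := by
      rw [← Finset.prod_mul_distrib, Finset.prod_congr rfl (g := fun _ => A.relIndex S),
        Finset.prod_const, Finset.card_range]
      intro j hj
      have hj' := Finset.mem_range.mp hj
      rw [mul_comm]
      exact hdu (V j) (CH_chain_leA hV j (by omega)) (hV.leS j (by omega))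
    have hOm : Om (A.relIndex S) = m + 1 := by
      have h := (CH_Om_chain (m + 1) (fun j => A.relIndex (V j))
        (fun j => (V j).relIndex (V (j + 1))) (by
          rw [hV.z, Subgroup.relIndex_self]) (by
          intro j hj
          rw [Subgroup.relIndex_mul_relIndex _ _ _ (CH_chain_leA hV j (by omega)) (hV.le j hj)])
        (fun j hj => hV.pr j hj) (m + 1) le_rfl).2
      change Om (A.relIndex (V (m + 1))) = m + 1 at h
      rw [hV.t] at h
      exact h
    rw [hOm]
    change S.relIndex C * A.relIndex S ≤ (A.relIndex S - 1) *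
      ∏ j ∈ Finset.range (m + 1), A.relIndex (CH_PW S (CH_PW S (V (m + 1 - j)))) at hb2
    rw [e1, e2] at hb2
    calc (S.relIndex C * A.relIndex S) ^ 2
        = (S.relIndex C * A.relIndex S) * (S.relIndex C * A.relIndex S) := by ring
      _ ≤ ((A.relIndex S - 1) * ∏ j ∈ Finset.range (m + 1), A.relIndex (CH_PW S (V j))) *
          ((A.relIndex S - 1) * ((∏ j ∈ Finset.range (m + 1), A.relIndex (V j)) * A.relIndex S)) :=
          Nat.mul_le_mul hb1 hb2
      _ = (A.relIndex S - 1) ^ 2 * (((∏ j ∈ Finset.range (m + 1), A.relIndex (CH_PW S (V j))) *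
          (∏ j ∈ Finset.range (m + 1), A.relIndex (V j))) * A.relIndex S) := by ring
      _ = (A.relIndex S - 1) ^ 2 * A.relIndex S ^ (m + 1 + 1) := by
          rw [e3, ← pow_succ]

end CHsec

theorem CH (hCH1 : CH1_stmt) (hDU : DU_stmt) (hK2 : K2_stmt) (hK3 : K3_stmt) : CH_stmt := by
  intro k U H _ _ _ _ _ _ _ _ hS S hSS
  obtain ⟨h1, _, _, _, _⟩ := hK2 k U H hS
  obtain ⟨_, _, _, h2⟩ := hK3 k U H hS
  exact CH_main (SA k U H) (SC k U H) S
    ⟨h1, hSS.hA, hSS.hC, hSS.ne, h2, hSS.comm, hSS.cent, hSS.self,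
      hDU k U H hS S hSS, hCH1 k U H hS S hSS⟩

end QS
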